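import Mathlib
import Pool.Agent.Y947.DP.Opt

/-!
# Optimisation with the logarithmic gain
-/

set_option autoImplicit false

open Finset Polynomial Module Pool.Agent.H388SL Pool.Agent.Y947.DL Pool.Agent.Y947.DM

namespace Pool.Agent.L0h53.DB

lemma log_le_small {x : ℝ} (hx : 10 ^ 80 ≤ x) : Real.log x ≤ x / 10 ^ 30 := by
  have hx0 : 0 < x := lt_of_lt_of_le (by positivity) hx
  have h1 : 10 ^ 40 ≤ Real.sqrt x := by
    apply Real.le_sqrt_of_sq_le
    refine le_trans ?_ hx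
    norm_num
  have hs : 0 < Real.sqrt x := lt_of_lt_of_le (by positivity) h1
  have h2 : Real.log x = 2 * Real.log (Real.sqrt x) := by
    rw [Real.log_sqrt hx0.le]; ring
  have h3 : Real.log (Real.sqrt x) ≤ Real.sqrt x := by
    have := Real.log_le_sub_one_of_pos hs
    linarith
  have h4 : Real.sqrt x * Real.sqrt x = x := Real.mul_self_sqrt hx0.le
  rw [h2, le_div_iff₀ (by positivity)]
  have h5 : (10:ℝ) ^ 40 * Real.sqrt x ≤ Real.sqrt x * Real.sqrt x :=
    mul_le_mul_of_nonneg_right h1 hs.le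
  rw [h4] at h5
  have h6 : 2 * Real.log (Real.sqrt x) * 10 ^ 30 ≤ 2 * Real.sqrt x * 10 ^ 30 := by
    apply mul_le_mul_of_nonneg_right _ (by positivity)
    linarith
  refine h6.trans (le_trans ?_ h5)
  have : 2 * Real.sqrt x * 10 ^ 30 = (2 * 10 ^ 30) * Real.sqrt x := by ring
  rw [this]
  apply mul_le_mul_of_nonneg_right _ hs.le
  norm_num

lemma one_le_log {x : ℝ} (hx : 10 ^ 80 ≤ x) : 1 ≤ Real.log x := by
  rw [Real.le_log_iff_exp_le (lt_of_lt_of_le (by positivity) hx)]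
  refine le_trans (Real.exp_one_lt_d9.le) (le_trans ?_ hx)
  norm_num

/-- facts about the choice of `Y` -/
lemma Y_facts' {R L Y : ℝ} (hR : 10 ^ 80 ≤ R) (hL : L = Real.log R)
    (hY1 : 2048 * R ^ 2 / L ≤ Y) (hY2 : Y ≤ 2048 * R ^ 2 / L + 1) :
    R ≤ Y ∧ Y ≤ 4096 * R ^ 2 / L ∧ L ≤ Real.log Y ∧ Real.log Y ≤ R := by
  have hR0 : 0 < R := lt_of_lt_of_le (by positivity) hR
  have hR1 : (4096:ℝ) ≤ R := le_trans (by norm_num) hR
  have hL1 : 1 ≤ L := by rw [hL]; exact one_le_log hR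
  have hL0 : 0 < L := by linarith
  have hLR : L ≤ R / 10 ^ 30 := by rw [hL]; exact log_le_small hR
  have hLR' : L ≤ R / 3 := by
    refine hLR.trans ?_
    apply div_le_div_of_nonneg_left hR0.le (by norm_num) (by norm_num)
  have hbase : R ≤ 2048 * R ^ 2 / L := by
    rw [le_div_iff₀ hL0]
    nlinarith
  have hRY : R ≤ Y := hbase.trans hY1
  have hY3 : Y ≤ 4096 * R ^ 2 / L := by
    have e : 4096 * R ^ 2 / L = 2048 * R ^ 2 / L + 2048 * R ^ 2 / L := by ring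
    rw [e]
    linarith
  have hY0 : 0 < Y := by linarith
  refine ⟨hRY, hY3, ?_, ?_⟩
  · rw [hL]; exact Real.log_le_log hR0 hRY
  · have h1 : Y ≤ R ^ 3 := by
      refine hY3.trans ?_
      rw [div_le_iff₀ hL0]
      have h2 : R ^ 3 ≤ R ^ 3 * L := le_mul_of_one_le_right (by positivity) hL1
      refine le_trans ?_ h2
      have h3 : 4096 * R ^ 2 ≤ R * R ^ 2 := mul_le_mul_of_nonneg_right hR1 (by positivity)
      calc 4096 * R ^ 2 ≤ R * R ^ 2 := h3
        _ = R ^ 3 := by ring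
    have h2 := Real.log_le_log hY0 h1
    rw [Real.log_pow, ← hL] at h2
    push_cast at h2
    linarith

/-- the final computation -/
lemma final_opt {R L Y l θ q s m T : ℝ} (hR : 10 ^ 80 ≤ R) (hL1 : 1 ≤ L)
    (hY1 : 2048 * R ^ 2 / L ≤ Y) (hY2 : Y ≤ 4096 * R ^ 2 / L) (hRY : R ≤ Y) (hLl : L ≤ l) (hlR : l ≤ R)
    (hθ : Y / 16 ≤ θ) (hq0 : 0 < q) (hqY : q * l ≤ 4 * Y) (hθq : θ ≤ q * l) (hs : s ≤ q * Y)
    (hm : 0 ≤ m) (hT : T = θ / R)
    (hmain : 2 * T * θ ≤ (T ^ 2 + q) * R + m * (2 * T * (s + q) + 2 * q * s)) :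
    L ^ 3 / (201326592 * R ^ 3) ≤ m := by
  have hR0 : 0 < R := lt_of_lt_of_le (by positivity) hR
  have hL0 : 0 < L := by linarith
  have hR1 : (1:ℝ) ≤ R := le_trans (by norm_num) hR
  have hY0 : 0 < Y := by linarith
  have hYone : 1 ≤ Y := by linarith
  have hl0 : 0 < l := by linarith
  have hθ0 : 0 < θ := by linarith [show 0 < Y / 16 by positivity]
  have hT0 : 0 < T := by rw [hT]; positivity
  have hTq : T ≤ q := by
    rw [hT, div_le_iff₀ hR0]
    exact hθq.trans (mul_le_mul_of_nonneg_left hlR hq0.le)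
  -- the remaining term
  have hE : 2 * T * (s + q) + 2 * q * s ≤ 6 * (q ^ 2 * Y) := by
    have h1 : s + q ≤ 2 * (q * Y) := by nlinarith
    have h2 : 2 * T * (s + q) ≤ 2 * q * (2 * (q * Y)) := by
      calc 2 * T * (s + q) ≤ 2 * T * (2 * (q * Y)) := mul_le_mul_of_nonneg_left h1 (by positivity)
        _ ≤ 2 * q * (2 * (q * Y)) := mul_le_mul_of_nonneg_right (by linarith) (by positivity)
    have h3 : 2 * q * s ≤ 2 * q * (q * Y) := mul_le_mul_of_nonneg_left hs (by positivity)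
    nlinarith
  have hTR : T * R = θ := by rw [hT]; field_simp
  have hqR : q * R ≤ θ ^ 2 / (2 * R) := by
    rw [le_div_iff₀ (by positivity)]
    have h1 : 2048 * R ^ 2 ≤ Y * l := by
      have h2 : 2048 * R ^ 2 ≤ Y * L := by
        rw [div_le_iff₀ hL0] at hY1
        exact hY1
      exact h2.trans (mul_le_mul_of_nonneg_left hLl hY0.le)
    have h3 : (Y / 16) ^ 2 ≤ θ ^ 2 := pow_le_pow_left₀ (by positivity) hθ 2
    have h4 : q * (2048 * R ^ 2) ≤ 4 * Y * Y := by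
      calc q * (2048 * R ^ 2) ≤ q * (Y * l) := mul_le_mul_of_nonneg_left h1 hq0.le
        _ = (q * l) * Y := by ring
        _ ≤ 4 * Y * Y := mul_le_mul_of_nonneg_right hqY hY0.le
    nlinarith
  have h5 : θ ^ 2 / (2 * R) ≤ m * (6 * (q ^ 2 * Y)) := by
    have e1 : 2 * T * θ = 2 * (θ ^ 2 / R) := by rw [hT]; ring
    have e2 : T ^ 2 * R = θ ^ 2 / R := by rw [hT]; field_simp
    have e3 : (T ^ 2 + q) * R = θ ^ 2 / R + q * R := by rw [add_mul, e2]
    rw [e1, e3] at hmain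
    have e4 : θ ^ 2 / (2 * R) = θ ^ 2 / R / 2 := by rw [div_div, mul_comm]
    rw [e4] at hqR ⊢
    have h6 := mul_le_mul_of_nonneg_left hE hm
    linarith
  have h6 : Y ^ 2 / (512 * R) ≤ θ ^ 2 / (2 * R) := by
    rw [div_le_div_iff₀ (by positivity) (by positivity)]
    have h3 : (Y / 16) ^ 2 ≤ θ ^ 2 := pow_le_pow_left₀ (by positivity) hθ 2
    nlinarith
  have h7 : Y ^ 2 ≤ 512 * R * (m * (6 * (q ^ 2 * Y))) := by
    have := h6.trans h5
    rw [div_le_iff₀ (by positivity)] at this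
    linarith
  have h8 : Y * l ^ 2 ≤ 49152 * R * m * Y ^ 2 := by
    have h9 : Y ^ 2 * l ^ 2 ≤ 512 * R * (m * (6 * (q ^ 2 * Y))) * l ^ 2 :=
      mul_le_mul_of_nonneg_right h7 (by positivity)
    have h10 : (q * l) ^ 2 ≤ (4 * Y) ^ 2 := pow_le_pow_left₀ (by positivity) hqY 2
    have h11 : 512 * R * (m * (6 * (q ^ 2 * Y))) * l ^ 2 ≤ 3072 * R * m * Y * (4 * Y) ^ 2 := by
      have e : 512 * R * (m * (6 * (q ^ 2 * Y))) * l ^ 2 = 3072 * R * m * Y * (q * l) ^ 2 := by ring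
      rw [e]
      exact mul_le_mul_of_nonneg_left h10 (by positivity)
    have h12 : Y * (Y * l ^ 2) ≤ Y * (49152 * R * m * Y ^ 2) := by
      calc Y * (Y * l ^ 2) = Y ^ 2 * l ^ 2 := by ring
        _ ≤ _ := h9.trans h11
        _ = Y * (49152 * R * m * Y ^ 2) := by ring
    exact le_of_mul_le_mul_left h12 hY0
  have h9 : l ^ 2 ≤ 49152 * R * m * Y := by
    have h12 : Y * l ^ 2 ≤ Y * (49152 * R * m * Y) := by
      refine h8.trans (le_of_eq ?_); ring
    exact le_of_mul_le_mul_left h12 hY0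
  have h10 : L ^ 2 ≤ 49152 * R * m * (4096 * R ^ 2 / L) := by
    calc L ^ 2 ≤ l ^ 2 := pow_le_pow_left₀ hL0.le hLl 2
      _ ≤ 49152 * R * m * Y := h9
      _ ≤ _ := mul_le_mul_of_nonneg_left hY2 (by positivity)
  rw [div_le_iff₀ (by positivity)]
  have e : 49152 * R * m * (4096 * R ^ 2 / L) = m * (201326592 * R ^ 3) / L := by
    field_simp; ring
  rw [e, le_div_iff₀ hL0] at h10
  calc L ^ 3 = L ^ 2 * L := by ring
    _ ≤ _ := h10

/-- the bound over a number field, from one contraction with small displacement -/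
theorem field_opt : ∃ R0 : ℝ, 10 ^ 80 ≤ R0 ∧ ∀ (K : Type) [Field K] [NumberField K] (α : K),
    IsIntegral ℤ α → α ≠ 0 → (∀ n : ℕ, 0 < n → α ^ n ≠ 1) → CInj α →
    (∀ p : ℕ, p.Prime → p ≠ 2 → Good α p) →
    ∀ R : ℝ, R0 ≤ R → ∀ ε : (K →ₐ[ℚ] ℂ) → ℝ, (∀ σ, 0 < ε σ) →
      ∑ σ, ε σ ≤ 1 / (10 ^ 13 * R ^ 5) → EE α ε 1 1 ≤ finrank ℚ K * R →
    Real.log R ^ 3 / (402653184 * R ^ 3) ≤ lam α := by
  obtain ⟨Y0, hY01, hY0⟩ := exists_Y0
  refine ⟨max (10 ^ 80) Y0, le_max_left _ _, ?_⟩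
  intro K _ _ α hα h0 hroot hc hgood R hRR ε hε hη hEE
  classical
  have hR80 : (10:ℝ) ^ 80 ≤ R := (le_max_left _ _).trans hRR
  have hRY0 : (Y0:ℝ) ≤ R := (le_max_right _ _).trans hRR
  have hR0 : 0 < R := lt_of_lt_of_le (by positivity) hR80
  obtain ⟨L, hL⟩ : ∃ L, L = Real.log R := ⟨_, rfl⟩
  have hL1 : 1 ≤ L := by rw [hL]; exact one_le_log hR80
  have hL0 : 0 < L := by linarith
  have hη0 : 0 ≤ ∑ σ, ε σ := Finset.sum_nonneg fun σ _ => (hε σ).le
  set Y : ℕ := ⌈2048 * R ^ 2 / L⌉₊ with hYdef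
  have hYge : 2048 * R ^ 2 / L ≤ Y := Nat.le_ceil _
  have hYle : (Y:ℝ) ≤ 2048 * R ^ 2 / L + 1 := (Nat.ceil_lt_add_one (by positivity)).le
  obtain ⟨hRY, hY3, hLl, hlR⟩ := Y_facts' hR80 hL hYge hYle
  have hR8 : (8:ℝ) ≤ R := le_trans (by norm_num) hR80
  have hY8 : 8 ≤ Y := by exact_mod_cast hR8.trans hRY
  have hY0Y : Y0 ≤ Y := by exact_mod_cast hRY0.trans hRY
  have hY1 : 1 ≤ Y := by omega
  have hY2 : 2 ≤ Y := by omega
  have hY1' : (1:ℝ) ≤ Y := by exact_mod_cast hY1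
  have hlam0 := lam_nonneg α
  -- the contraction is negligible
  have hYS' : (Y:ℝ) * ∑ σ, ε σ ≤ L ^ 3 / (402653184 * R ^ 3) / 2 := by
    calc (Y:ℝ) * ∑ σ, ε σ ≤ (4096 * R ^ 2 / L) * (1 / (10 ^ 13 * R ^ 5)) :=
          mul_le_mul hY3 hη hη0 (by positivity)
      _ = (4096 / 10 ^ 13) / (L * R ^ 3) := by field_simp
      _ ≤ L ^ 3 / (402653184 * R ^ 3) / 2 := by
        have e1 : L ^ 3 / (402653184 * R ^ 3) / 2 = (L ^ 4 / 805306368) / (L * R ^ 3) := by
          field_simp; norm_num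
        rw [e1]
        apply div_le_div_of_nonneg_right _ (by positivity)
        have h1 : (1:ℝ) ≤ L ^ 4 := one_le_pow₀ hL1
        rw [div_le_div_iff₀ (by positivity) (by positivity)]
        calc (4096:ℝ) * 805306368 ≤ 1 * 10 ^ 13 := by norm_num
          _ ≤ L ^ 4 * 10 ^ 13 := mul_le_mul_of_nonneg_right h1 (by positivity)
  have hLR : L ≤ R := by
    have h1 : L ≤ R / 10 ^ 30 := by rw [hL]; exact log_le_small hR80
    refine h1.trans (div_le_self hR0.le ?_)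
    norm_num
  have hsm : L ^ 3 / (402653184 * R ^ 3) ≤ 1 := by
    rw [div_le_one (by positivity)]
    have h1 : L ^ 3 ≤ R ^ 3 := pow_le_pow_left₀ hL0.le hLR 3
    refine h1.trans ?_
    apply le_mul_of_one_le_left (by positivity)
    norm_num
  have hYS : (Y:ℝ) * ∑ σ, ε σ ≤ 1 / 2 := by linarith
  set P := blk Y with hP
  have hlogY0 : 0 ≤ Real.log Y := Real.log_nonneg hY1'
  have hlogp : ∀ p ∈ P, Real.log p ≤ Real.log Y := by
    intro p hp
    have h1 := mem_blk.mp hp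
    apply Real.log_le_log
    · exact_mod_cast h1.1.pos
    · exact_mod_cast h1.2.2
  have hθ : (Y:ℝ) / 16 ≤ ∑ p ∈ P, Real.log p := by
    have h1 := blk_sum hY0 Y hY0Y hY1
    linarith
  have hPcard : (P.card : ℝ) ≤ Nat.primeCounting Y := by
    have h1 : P.card ≤ Nat.primeCounting Y := by
      rw [Nat.primeCounting, Nat.primeCounting', Nat.count_eq_card_filter_range]
      apply Finset.card_le_card
      intro p hp
      have h3 := mem_blk.mp hp
      rw [Finset.mem_filter, Finset.mem_range]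
      exact ⟨by omega, h3.1⟩
    exact_mod_cast h1
  have hqY : (P.card : ℝ) * Real.log Y ≤ 4 * Y :=
    (mul_le_mul_of_nonneg_right hPcard hlogY0).trans (pi_le_nat hY2)
  have hθq : ∑ p ∈ P, Real.log p ≤ P.card * Real.log Y := by
    rw [← nsmul_eq_mul]
    apply Finset.sum_le_card_nsmul
    intro p hp
    exact hlogp p hp
  have hPpos : (0:ℝ) < P.card := by
    by_contra hc
    push Not at hc
    have h1 : (P.card : ℝ) * Real.log Y ≤ 0 := mul_nonpos_of_nonpos_of_nonneg hc hlogY0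
    have : (0:ℝ) < Y / 16 := by linarith
    linarith
  have hs : ∑ p ∈ P, (p : ℝ) ≤ P.card * Y := by
    rw [← nsmul_eq_mul]
    apply Finset.sum_le_card_nsmul
    intro p hp
    exact_mod_cast (mem_blk.mp hp).2.2
  have hθ0 : 0 ≤ ∑ p ∈ P, Real.log p := by linarith
  have hmain := main_ineq2 hα h0 hroot hc hε hY1 hYS P
    (fun p hp => (mem_blk.mp hp).1)
    (fun p hp => hgood p (mem_blk.mp hp).1 (by
      have := (mem_blk.mp hp).2.1
      omega))
    (fun p hp => (mem_blk.mp hp).2.2)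
    (T := (∑ p ∈ P, Real.log p) / R) (by positivity) hR0.le hEE
  have hfin := final_opt hR80 hL1 hYge hY3 hRY hLl hlR hθ hPpos hqY hθq hs
    (by positivity : 0 ≤ lam α + 2 * (Y * ∑ σ, ε σ)) rfl hmain
  have e3 : L ^ 3 / (201326592 * R ^ 3) = 2 * (L ^ 3 / (402653184 * R ^ 3)) := by
    field_simp; norm_num
  rw [e3] at hfin
  rw [← hL]
  linarith

end Pool.Agent.L0h53.DB
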