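import Mathlib
import Pool.Agent.R383.Disc.Fin
import Pool.Agent.L0h53.DB.A

/-!
# The bound with the logarithmic gain in terms of the energy of the zeros
-/

set_option autoImplicit false

open Finset Polynomial Module IntermediateField Pool.Agent.H388SL Pool.Agent.Y947.DL
  Pool.Agent.Y947.DM Pool.Agent.Y947.DP Pool.Agent.R383.Disc

namespace Pool.Agent.L0h53.DB

/-- the conclusion of `field_opt` -/
def FO (R0 : ℝ) : Prop := ∀ (K : Type) [Field K] [NumberField K] (α : K),
    IsIntegral ℤ α → α ≠ 0 → (∀ n : ℕ, 0 < n → α ^ n ≠ 1) → CInj α →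
    (∀ p : ℕ, p.Prime → p ≠ 2 → Good α p) →
    ∀ R : ℝ, R0 ≤ R → ∀ ε : (K →ₐ[ℚ] ℂ) → ℝ, (∀ σ, 0 < ε σ) →
      ∑ σ, ε σ ≤ 1 / (10 ^ 13 * R ^ 5) → EE α ε 1 1 ≤ finrank ℚ K * R →
    Real.log R ^ 3 / (402653184 * R ^ 3) ≤ lam α

lemma log_const {b : ℝ} (hb : 10 ^ 80 ≤ b) : 3 + 77 * (1 + Real.log (10 ^ 13 * b ^ 5)) ≤ b := by
  have hb0 : 0 < b := lt_of_lt_of_le (by positivity) hb
  have h1 := log_le_small hb
  have h2 : Real.log (10 ^ 13 * b ^ 5) = 13 * Real.log 10 + 5 * Real.log b := by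
    rw [Real.log_mul (by positivity) (by positivity), Real.log_pow, Real.log_pow]
    push_cast
    ring
  have h3 : Real.log 10 ≤ 9 := by
    have := Real.log_le_sub_one_of_pos (show (0:ℝ) < 10 by norm_num)
    linarith
  rw [h2]
  have h4 : b / 10 ^ 30 ≤ b / 1000 :=
    div_le_div_of_nonneg_left hb0.le (by norm_num) (by norm_num)
  have h5 : (10:ℝ) ^ 5 ≤ b := le_trans (by norm_num) hb
  linarith

/-- the bound for a represented polynomial -/
lemma rep_main {R0 : ℝ} (hR0 : 10 ^ 80 ≤ R0) (hFO : FO R0) {p : ℤ[X]} {K : Type} [Field K]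
    [NumberField K] {α : K} (h : Rep p K α) (hc0 : |p.coeff 0| = 1) (hM : 1 < MM p)
    (hgood : ∀ q : ℕ, q.Prime → q ≠ 2 → Good α q) {R : ℝ} (hR : 2 ≤ R)
    (hE : Ep p (1 - 1 / R ^ 5 / p.natDegree) ≤ p.natDegree * (R + 3)) :
    1 / (402653184 * R0 ^ 3) * (Real.log R / R) ^ 3 ≤ Real.log (MM p) := by
  rw [h.log_MM]
  have hn2 := two_le_fin h hc0 hM
  rw [Ep_rep h, ← h.fin] at hE
  obtain ⟨n, hn⟩ : ∃ n : ℝ, n = finrank ℚ K := ⟨_, rfl⟩
  have hn2' : (2:ℝ) ≤ n := by rw [hn]; exact_mod_cast hn2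
  have hR00 : 0 < R0 := lt_of_lt_of_le (by positivity) hR0
  have hR01 : 1 ≤ R0 := le_trans (by norm_num) hR0
  have hRpos : 0 < R := by linarith
  have hR0R : R0 ≤ R0 * R := le_mul_of_one_le_right hR00.le (by linarith)
  have hRR0 : R ≤ R0 * R := le_mul_of_one_le_left hRpos.le hR01
  set b : (K →ₐ[ℚ] ℂ) → ℂ := fun σ => H388SL.refl (σ α) with hbdef
  have hb : ∀ σ : K →ₐ[ℚ] ℂ, ‖b σ‖ ≤ 1 := fun σ => norm_refl_le _
  have hn0 : 0 < n := by linarith
  have hcard : (Fintype.card (K →ₐ[ℚ] ℂ) : ℝ) = n := by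
    rw [hn]; exact_mod_cast AlgHom.card ℚ K ℂ
  rw [← hn] at hE
  obtain ⟨κ, hκ⟩ : ∃ κ : ℝ, κ = 1 / R ^ 5 := ⟨_, rfl⟩
  obtain ⟨κ', hκ'⟩ : ∃ κ' : ℝ, κ' = 1 / (10 ^ 13 * (R0 * R) ^ 5) := ⟨_, rfl⟩
  have hκ0 : 0 < κ := by rw [hκ]; positivity
  have hκ'0 : 0 < κ' := by rw [hκ']; positivity
  have hκ1 : κ ≤ 1 := by
    rw [hκ, div_le_one (by positivity)]
    exact one_le_pow₀ (by linarith)
  have hκκ' : κ = (10 ^ 13 * R0 ^ 5) * κ' := by
    rw [hκ, hκ']; field_simp
  have hκ'κ : κ' ≤ κ := by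
    rw [hκκ']
    apply le_mul_of_one_le_left hκ'0.le
    have h1 : (1:ℝ) ≤ R0 ^ 5 := one_le_pow₀ hR01
    nlinarith
  rw [← hκ] at hE
  set e := κ' / n with he
  have he0 : 0 < e := by positivity
  have heκ : e ≤ κ / n := div_le_div_of_nonneg_right hκ'κ hn0.le
  have hκn : κ / n ≤ 1 / 2 := by
    rw [div_le_iff₀ hn0]; linarith
  have hfo := hFO K α h.isInt (h.ne_zero hc0) (h.not_root hM) h.inj hgood (R0 * R) hR0R (fun _ => e)
    (fun _ => he0) (by
      rw [Finset.sum_const, Finset.card_univ, nsmul_eq_mul, hcard, ← hκ', he]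
      apply le_of_eq
      field_simp) (by
      have e1 : EE α (fun _ => e) 1 1 = En b ((1 - e) ^ 2) := by
        unfold EE En
        refine Finset.sum_congr rfl fun σ _ => Finset.sum_congr rfl fun τ _ => ?_
        rw [ww_mul α _ σ τ one_ne_zero one_ne_zero]
        simp only [pow_one, pow_two]
        rfl
      rw [e1, ← hn]
      have h1 : En b ((1 - e) ^ 2) ≤ En b (1 - e) := by
        apply En_mono hb (by positivity)
        · nlinarith
        · linarith
      refine h1.trans ?_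
      have h2 := scale hb (s := 1 - κ / n) (s' := 1 - e) (by linarith) (by linarith) (by linarith)
      rw [hcard, sub_sub_cancel, sub_sub_cancel] at h2
      have e2 : κ / n / e = 10 ^ 13 * R0 ^ 5 := by
        rw [he, hκκ']; field_simp
      have e3 : 2 * (κ / n) * n ^ 2 = 2 * κ * n := by field_simp
      rw [e2, e3] at h2
      refine h2.trans ?_
      have hEn0 : 0 ≤ En b (1 - κ / n) := En_nonneg hb (by linarith) (by
        have : 0 < κ / n := by positivity
        linarith)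
      have hEn1 : En b (1 - κ / n) ≤ 5 / 2 * (n * R) := by nlinarith
      have hlog0 : 0 ≤ Real.log (10 ^ 13 * R0 ^ 5) := by
        apply Real.log_nonneg
        have h1 : (1:ℝ) ≤ R0 ^ 5 := one_le_pow₀ hR01
        nlinarith
      have h3 : 2 * κ * n + 4 * En b (1 - κ / n) ≤ 11 * (n * R) := by nlinarith
      have h4 : 7 * (1 + Real.log (10 ^ 13 * R0 ^ 5)) * (2 * κ * n + 4 * En b (1 - κ / n)) ≤
          7 * (1 + Real.log (10 ^ 13 * R0 ^ 5)) * (11 * (n * R)) :=
        mul_le_mul_of_nonneg_left h3 (by positivity)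
      have h5 := mul_le_mul_of_nonneg_left (log_const hR0) (show 0 ≤ n * R by positivity)
      have h6 : 0 ≤ n * R := by positivity
      have e5 : 7 * (1 + Real.log (10 ^ 13 * R0 ^ 5)) * (11 * (n * R)) =
          n * R * (77 * (1 + Real.log (10 ^ 13 * R0 ^ 5))) := by ring
      have e6 : n * (R0 * R) = n * R * R0 := by ring
      rw [e5] at h4
      rw [e6]
      rw [mul_add] at h5
      have h7 := add_le_add hEn1 h4
      refine h7.trans (le_trans ?_ h5)
      apply add_le_add _ le_rfl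
      linarith)
  refine le_trans ?_ hfo
  have h1 : Real.log R ≤ Real.log (R0 * R) := Real.log_le_log hRpos hRR0
  have h0 : 0 ≤ Real.log R := Real.log_nonneg (by linarith)
  have e4 : 1 / (402653184 * R0 ^ 3) * (Real.log R / R) ^ 3 =
      Real.log R ^ 3 / (402653184 * (R0 * R) ^ 3) := by
    rw [div_pow, mul_pow]
    field_simp
  rw [e4]
  apply div_le_div_of_nonneg_right _ (by positivity)
  exact pow_le_pow_left₀ h0 h1 3

/-- monic units -/
theorem monic_case : ∃ c : ℝ, 0 < c ∧ ∀ f : ℤ[X], Irreducible f → f.Monic → |f.coeff 0| = 1 →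
    1 < MM f → ∀ R : ℝ, 2 ≤ R → Ep f (1 - 1 / R ^ 5 / f.natDegree) ≤ f.natDegree * (R + 3) →
    c * (Real.log R / R) ^ 3 ≤ Real.log (MM f) := by
  obtain ⟨R0, hR0, hFO⟩ := field_opt
  have hR00 : 0 < R0 := lt_of_lt_of_le (by positivity) hR0
  refine ⟨1 / (402653184 * R0 ^ 3), by positivity, ?_⟩
  have ind : ∀ n : ℕ, ∀ f : ℤ[X], f.natDegree = n → Irreducible f → f.Monic → |f.coeff 0| = 1 →
      1 < MM f → ∀ R : ℝ, 2 ≤ R → Ep f (1 - 1 / R ^ 5 / f.natDegree) ≤ f.natDegree * (R + 3) →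
      1 / (402653184 * R0 ^ 3) * (Real.log R / R) ^ 3 ≤ Real.log (MM f) := by
    intro n
    induction n using Nat.strong_induction_on with
    | _ n ih =>
      intro f hfn hf hm hf0 hM R hR hE
      by_cases hexp : ∃ q : ℕ, q.Prime ∧ ∃ g : ℤ[X], f = expand ℤ q g
      · obtain ⟨q, hq, g, hg⟩ := hexp
        have hgirr : Irreducible g := of_irreducible_expand hq.ne_zero (by rw [← hg]; exact hf)
        have hgm : g.Monic := by
          have h1 := hm
          rw [hg, Monic, leadingCoeff_expand hq.pos] at h1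
          exact h1
        have hMM : MM f = MM g := by rw [hg, MM_expand hq.pos]
        have hg0 : |g.coeff 0| = 1 := by
          rw [hg, coeff_expand hq.pos, if_pos (dvd_zero q), Nat.zero_div] at hf0
          exact hf0
        have hg1 : g.natDegree ≠ 0 := natDegree_ne (by rw [← hMM]; exact hM) hgm
        have hgpos : 0 < g.natDegree := Nat.pos_of_ne_zero hg1
        have hdeg : f.natDegree = g.natDegree * q := by rw [hg, natDegree_expand]
        have hgd : g.natDegree < n := by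
          rw [← hfn, hdeg]
          have := hq.two_le
          nlinarith
        have hm1 : (1:ℝ) ≤ g.natDegree := by exact_mod_cast hgpos
        have hq1 : (1:ℝ) ≤ q := by exact_mod_cast hq.one_lt.le
        have hmq : (1:ℝ) ≤ g.natDegree * q := by nlinarith
        obtain ⟨κ, hκ⟩ : ∃ κ : ℝ, κ = 1 / R ^ 5 := ⟨_, rfl⟩
        have hκ0 : 0 < κ := by rw [hκ]; positivity
        have hκ1 : κ ≤ 1 := by
          rw [hκ, div_le_one (by positivity)]
          exact one_le_pow₀ (by linarith)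
        rw [← hκ] at hE
        have hinv : κ / ((g.natDegree : ℝ) * q) ≤ 1 := by
          rw [div_le_one (by positivity)]; linarith
        have hinv0 : 0 < κ / ((g.natDegree : ℝ) * q) := by positivity
        have hE2 : Ep g (1 - κ / g.natDegree) ≤ g.natDegree * (R + 3) := by
          have h1 : Ep f (1 - κ / f.natDegree) = q * Ep g ((1 - κ / f.natDegree) ^ q) := by
            have h2 := Ep_expand hq.pos hgm (s := 1 - κ / f.natDegree) (by
              rw [hdeg]; push_cast; linarith) (by rw [hdeg]; push_cast; linarith)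
            rw [← h2, ← hg]
          rw [h1, hdeg] at hE
          push_cast at hE
          have h3 : Ep g ((1 - κ / ((g.natDegree : ℝ) * q)) ^ q) ≤ g.natDegree * (R + 3) := by
            have h4 : (q:ℝ) * Ep g ((1 - κ / ((g.natDegree : ℝ) * q)) ^ q) ≤
                q * (g.natDegree * (R + 3)) := by linarith
            exact le_of_mul_le_mul_left h4 (by linarith)
          refine le_trans ?_ h3
          obtain ⟨z, hz⟩ := exists_zero (by rw [← hMM]; exact hM) hgm
          obtain ⟨hNF, hrep⟩ := exists_rep g hgirr hgm z hz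
          rw [Ep_rep hrep, Ep_rep hrep]
          apply En_mono (fun σ => norm_refl_le _)
          · rw [sub_nonneg, div_le_one (by linarith)]; linarith
          · have h5 := one_add_mul_le_pow (show -2 ≤ -(κ / ((g.natDegree : ℝ) * q)) by linarith) q
            have e1 : 1 + (q:ℝ) * -(κ / ((g.natDegree : ℝ) * q)) = 1 - κ / g.natDegree := by
              field_simp
              ring
            rw [e1, ← sub_eq_add_neg] at h5
            exact h5
          · exact pow_lt_one₀ (by linarith) (by linarith) hq.ne_zero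
        have h1 := ih g.natDegree hgd g rfl hgirr hgm hg0 (by rw [← hMM]; exact hM) R hR
          (by rw [← hκ]; exact hE2)
        rw [hMM]
        exact h1
      · push Not at hexp
        obtain ⟨z, hz⟩ := exists_zero hM hm
        obtain ⟨hNF, hrep⟩ := exists_rep f hf hm z hz
        refine rep_main hR0 hFO hrep hf0 hM ?_ hR hE
        intro q hq hq2
        exact good_of_witness (hrep.ne_zero hf0) hrep.inj hq hq2 (hrep.witness hq (hexp q hq))
  intro f hf hm hf0 hM R hR hE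
  exact ind _ f rfl hf hm hf0 hM R hR hE

/-- the truncated energy of the zeros: pairs of zeros at distance less than `κ / n` are counted
as if they had distance `κ / n` -/
noncomputable def Trk (f : ℤ[X]) (κ : ℝ) : ℝ :=
  ((zs f).map fun z => ((zs f).map fun w =>
    -Real.log (max ‖z - w‖ (κ / f.natDegree))).sum).sum

section Rep

variable {p : ℤ[X]} {K : Type} [Field K] [NumberField K] {α : K}

lemma Trk_rep (h : Rep p K α) (κ : ℝ) :
    Trk p κ = ∑ σ : K →ₐ[ℚ] ℂ, ∑ τ : K →ₐ[ℚ] ℂ, -Real.log (max ‖σ α - τ α‖ (κ / p.natDegree)) := by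
  unfold Trk
  rw [sum_zs h]
  refine Finset.sum_congr rfl fun σ _ => ?_
  rw [sum_zs h]

lemma Ep_le_Trk (h : Rep p K α) (hl : lam α ≤ 1) {κ : ℝ} (hκ0 : 0 < κ) (hκ1 : κ ≤ 1) :
    Ep p (1 - κ / p.natDegree) ≤ Trk p κ + 3 * p.natDegree := by
  have hn0 : (0:ℝ) < p.natDegree := by exact_mod_cast natDegree_pos_rep h
  have hn1 : (1:ℝ) ≤ p.natDegree := by exact_mod_cast natDegree_pos_rep h
  have hcard : (Fintype.card (K →ₐ[ℚ] ℂ) : ℝ) = p.natDegree := by
    rw [← h.fin]; exact_mod_cast AlgHom.card ℚ K ℂ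
  rw [Ep_rep h, Trk_rep h]
  unfold En
  obtain ⟨n, hn⟩ : ∃ n : ℝ, n = p.natDegree := ⟨_, rfl⟩
  rw [← hn] at hn0 hn1 hcard ⊢
  have hinv : 0 < κ / n := by positivity
  have hinv1 : κ / n ≤ 1 := by rw [div_le_one hn0]; linarith
  have h1 : ∀ σ ∈ (Finset.univ : Finset (K →ₐ[ℚ] ℂ)), ∀ τ ∈ (Finset.univ : Finset (K →ₐ[ℚ] ℂ)),
      -Real.log ‖1 - ((1 - κ / n : ℝ) : ℂ) * (H388SL.refl (σ α) * starRingEnd ℂ (H388SL.refl (τ α)))‖ ≤
      -Real.log (max ‖σ α - τ α‖ (κ / n)) + Real.log (max 1 ‖σ α‖) + Real.log (max 1 ‖τ α‖) + κ / n := by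
    intro σ _ τ _
    have hb : ‖H388SL.refl (σ α) * starRingEnd ℂ (H388SL.refl (τ α))‖ ≤ 1 := by
      rw [norm_mul, RCLike.norm_conj]
      exact mul_le_one₀ (norm_refl_le _) (norm_nonneg _) (norm_refl_le _)
    have h2 := norm_one_sub_ge (show (0:ℝ) ≤ 1 - κ / n by linarith) hb
    rcases le_or_gt (κ / n) ‖σ α - τ α‖ with h3 | h3
    · rw [max_eq_left h3]
      have hne : σ α ≠ τ α := by
        intro h4
        rw [h4, sub_self, norm_zero] at h3
        linarith
      have h5 := pair_log hne (show (0:ℝ) ≤ 1 - κ / n by linarith) (by linarith)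
      linarith
    · rw [max_eq_right h3.le]
      have h4 : Real.log (κ / n) ≤ Real.log ‖1 - ((1 - κ / n : ℝ) : ℂ) *
          (H388SL.refl (σ α) * starRingEnd ℂ (H388SL.refl (τ α)))‖ := by
        apply Real.log_le_log hinv
        linarith
      have h5 : 0 ≤ Real.log (max 1 ‖σ α‖) := Real.log_nonneg (le_max_left _ _)
      have h6 : 0 ≤ Real.log (max 1 ‖τ α‖) := Real.log_nonneg (le_max_left _ _)
      linarith
  refine (Finset.sum_le_sum fun σ hσ => Finset.sum_le_sum fun τ hτ => h1 σ hσ τ hτ).trans ?_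
  have e3 : ∑ σ : K →ₐ[ℚ] ℂ, Real.log (max 1 ‖σ α‖) = lam α := rfl
  simp only [Finset.sum_add_distrib, Finset.sum_const, Finset.card_univ, nsmul_eq_mul, hcard,
    ← Finset.mul_sum, e3]
  have e4 : n * (n * (κ / n)) = κ * n := by field_simp
  rw [e4]
  nlinarith

lemma Trk_le_discr (h : Rep p K α) {κ : ℝ} (hκ0 : 0 < κ) :
    Trk p κ ≤ p.natDegree * (Real.log p.natDegree - Real.log κ) - Real.log |(p.discr : ℝ)| := by
  classical
  have hn0 : (0:ℝ) < p.natDegree := by exact_mod_cast natDegree_pos_rep h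
  have hcard : (Fintype.card (K →ₐ[ℚ] ℂ) : ℝ) = p.natDegree := by
    rw [← h.fin]; exact_mod_cast AlgHom.card ℚ K ℂ
  have hne : ∀ σ : K →ₐ[ℚ] ℂ, ∀ τ ∈ Finset.univ.erase σ, ‖σ α - τ α‖ ≠ 0 := by
    intro σ τ hτ h0
    exact (Finset.ne_of_mem_erase hτ) (h.inj (sub_eq_zero.mp (norm_eq_zero.mp h0))).symm
  rw [Trk_rep h, discr_rep h, Real.log_prod (fun σ _ => Finset.prod_ne_zero_iff.mpr (hne σ))]
  rw [← hcard, ← nsmul_eq_mul, ← Finset.card_univ, ← Finset.sum_const, ← Finset.sum_sub_distrib]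
  refine Finset.sum_le_sum fun σ _ => ?_
  rw [Real.log_prod (hne σ), ← Finset.add_sum_erase _ _ (Finset.mem_univ σ), sub_self, norm_zero,
    sub_eq_add_neg, ← Finset.sum_neg_distrib]
  have hcu : (0:ℝ) < ((Finset.univ : Finset (K →ₐ[ℚ] ℂ)).card : ℝ) := by
    rw [Finset.card_univ, hcard]; exact hn0
  apply add_le_add
  · rw [max_eq_right (by positivity), Real.log_div hκ0.ne' hcu.ne', neg_sub]
  · refine Finset.sum_le_sum fun τ hτ => ?_
    rw [neg_le_neg_iff]
    apply Real.log_le_log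
    · exact lt_of_le_of_ne (norm_nonneg _) (hne σ τ hτ).symm
    · exact le_max_left _ _

end Rep

lemma Trk_neg (f : ℤ[X]) (κ : ℝ) : Trk (-f) κ = Trk f κ := by
  unfold Trk
  rw [zs_neg, natDegree_neg]

lemma ratio_le {R : ℝ} (hR : 2 ≤ R) : (Real.log R / R) ^ 3 ≤ 1 := by
  have h0 : 0 ≤ Real.log R := Real.log_nonneg (by linarith)
  have h1 : Real.log R / R ≤ 1 := by
    rw [div_le_one (by linarith)]
    have := Real.log_le_sub_one_of_pos (show 0 < R by linarith)
    linarith
  exact pow_le_one₀ (by positivity) h1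

/-- the general irreducible case, truncated energy -/
theorem irr_case : ∃ c : ℝ, 0 < c ∧ ∀ f : ℤ[X], Irreducible f → 1 < MM f →
    ∀ R : ℝ, 2 ≤ R → Trk f (1 / R ^ 5) ≤ R * f.natDegree →
      c * (Real.log R / R) ^ 3 ≤ Real.log (MM f) := by
  obtain ⟨c1, hc1, hc⟩ := monic_case
  have hlog2 : 0 < Real.log 2 := Real.log_pos (by norm_num)
  set c := min c1 (Real.log 2) with hcdef
  have hc0 : 0 < c := lt_min hc1 hlog2
  refine ⟨c, hc0, ?_⟩
  intro f hf hM R hR hT
  have hrat0 : 0 ≤ (Real.log R / R) ^ 3 := by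
    have h0 : 0 ≤ Real.log R := Real.log_nonneg (by linarith)
    have : 0 < R := by linarith
    positivity
  by_cases hbig : 2 ≤ MM f
  · have h1 : c ≤ Real.log 2 := min_le_right _ _
    have h2 : Real.log 2 ≤ Real.log (MM f) := Real.log_le_log (by norm_num) hbig
    have h3 := mul_le_mul_of_nonneg_left (ratio_le hR) hc0.le
    linarith
  push Not at hbig
  obtain ⟨hlc, hcc⟩ := unit_of_lt hf hM hbig
  have hcmp : c * (Real.log R / R) ^ 3 ≤ c1 * (Real.log R / R) ^ 3 :=
    mul_le_mul_of_nonneg_right (min_le_left _ _) hrat0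
  have hlam1 : Real.log (MM f) ≤ 1 := by
    have h1 : Real.log (MM f) ≤ Real.log 2 := Real.log_le_log (by linarith) hbig.le
    have := Real.log_two_lt_d9
    linarith
  have key : ∀ g : ℤ[X], Irreducible g → g.Monic → |g.coeff 0| = 1 → 1 < MM g →
      Real.log (MM g) ≤ 1 → Trk g (1 / R ^ 5) ≤ R * g.natDegree →
      c1 * (Real.log R / R) ^ 3 ≤ Real.log (MM g) := by
    intro g hg hgm hg0 hgM hgl hgT
    apply hc g hg hgm hg0 hgM R hR
    obtain ⟨z, hz⟩ := exists_zero hgM hgm
    obtain ⟨hNF, hrep⟩ := exists_rep g hg hgm z hz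
    have hRp : 0 < R := by linarith
    have h1 := Ep_le_Trk hrep (by rw [← hrep.log_MM]; exact hgl) (κ := 1 / R ^ 5) (by positivity) (by
      rw [div_le_one (by positivity)]
      exact one_le_pow₀ (by linarith))
    linarith
  rcases (abs_eq (by norm_num : (0:ℤ) ≤ 1)).mp hlc with h | h
  · exact hcmp.trans (key f hf h hcc hM hlam1 hT)
  · have h1 := key (-f) (by simpa using (irreducible_units_mul (-1 : ℤ[X]ˣ)).mpr hf) (by
        rw [Monic, leadingCoeff_neg, h]; norm_num) (by rw [coeff_neg, abs_neg]; exact hcc)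
      (by rw [MM_neg]; exact hM) (by rw [MM_neg]; exact hlam1)
      (by rw [Trk_neg, natDegree_neg]; exact hT)
    rw [MM_neg] at h1
    exact hcmp.trans h1

lemma disc_mono {f : ℤ[X]} (hf : Irreducible f) (hm : f.Monic) (hM : 1 < MM f) {κ : ℝ} (hκ : 0 < κ) :
    Trk f κ ≤ f.natDegree * (Real.log f.natDegree - Real.log κ) - Real.log |(f.discr : ℝ)| := by
  obtain ⟨z, hz⟩ := exists_zero hM hm
  obtain ⟨hNF, hrep⟩ := exists_rep f hf hm z hz
  exact Trk_le_discr hrep hκ

/-- the general irreducible case, discriminant -/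
theorem irr_disc : ∃ c : ℝ, 0 < c ∧ ∀ f : ℤ[X], Irreducible f → 1 < MM f →
    ∀ R : ℝ, 2 ≤ R → f.natDegree * (Real.log f.natDegree - R) ≤ Real.log |(f.discr : ℝ)| →
      c * (Real.log R / R) ^ 3 ≤ Real.log (MM f) := by
  obtain ⟨c1, hc1, hc⟩ := irr_case
  have hlog2 : 0 < Real.log 2 := Real.log_pos (by norm_num)
  set c := min (c1 / 30 ^ 3) (Real.log 2) with hcdef
  have hc0 : 0 < c := lt_min (by positivity) hlog2
  refine ⟨c, hc0, ?_⟩
  intro f hf hM R hR hT
  have hRp : 0 < R := by linarith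
  have hlogR : 0 ≤ Real.log R := Real.log_nonneg (by linarith)
  have hrat0 : 0 ≤ (Real.log R / R) ^ 3 := by positivity
  by_cases hbig : 2 ≤ MM f
  · have h1 : c ≤ Real.log 2 := min_le_right _ _
    have h2 : Real.log 2 ≤ Real.log (MM f) := Real.log_le_log (by norm_num) hbig
    have h3 := mul_le_mul_of_nonneg_left (ratio_le hR) hc0.le
    linarith
  push Not at hbig
  obtain ⟨hlc, hcc⟩ := unit_of_lt hf hM hbig
  have hcmp : c * (Real.log R / R) ^ 3 ≤ c1 * (Real.log (30 * R) / (30 * R)) ^ 3 := by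
    have h1 : Real.log R ≤ Real.log (30 * R) := Real.log_le_log hRp (by linarith)
    have h2 : (Real.log R / R) ^ 3 / 30 ^ 3 ≤ (Real.log (30 * R) / (30 * R)) ^ 3 := by
      rw [← div_pow, div_div, mul_comm R 30]
      apply pow_le_pow_left₀ (by positivity)
      exact div_le_div_of_nonneg_right h1 (by positivity)
    calc c * (Real.log R / R) ^ 3 ≤ c1 / 30 ^ 3 * (Real.log R / R) ^ 3 :=
          mul_le_mul_of_nonneg_right (min_le_left _ _) hrat0
      _ = c1 * ((Real.log R / R) ^ 3 / 30 ^ 3) := by ring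
      _ ≤ _ := mul_le_mul_of_nonneg_left h2 hc1.le
  refine hcmp.trans ?_
  apply hc f hf hM (30 * R) (by linarith)
  have hn0 : (0:ℝ) ≤ f.natDegree := Nat.cast_nonneg _
  have hκ0 : (0:ℝ) < 1 / (30 * R) ^ 5 := by positivity
  have hfin : Trk f (1 / (30 * R) ^ 5) ≤
      f.natDegree * (Real.log f.natDegree - Real.log (1 / (30 * R) ^ 5)) - Real.log |(f.discr : ℝ)| := by
    rcases (abs_eq (by norm_num : (0:ℤ) ≤ 1)).mp hlc with h | h
    · exact disc_mono hf h hM hκ0
    · have h1 := disc_mono (f := -f) (by simpa using (irreducible_units_mul (-1 : ℤ[X]ˣ)).mpr hf) (by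
          rw [Monic, leadingCoeff_neg, h]; norm_num) (by rw [MM_neg]; exact hM) hκ0
      rw [Trk_neg, natDegree_neg] at h1
      have h0 : f.natDegree ≠ 0 := by
        have := natDegree_ne (f := -f) (by rw [MM_neg]; exact hM) (by
          rw [Monic, leadingCoeff_neg, h]; norm_num)
        rwa [natDegree_neg] at this
      have h2 : |((-f).discr : ℝ)| = |(f.discr : ℝ)| := by
        exact_mod_cast abs_discr_neg f (Nat.pos_of_ne_zero h0)
      rwa [h2] at h1
  refine hfin.trans ?_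
  have hlog : Real.log (1 / (30 * R) ^ 5) = -(5 * Real.log (30 * R)) := by
    rw [one_div, Real.log_inv, Real.log_pow]; norm_num
  have hl30 : Real.log (30 * R) ≤ 5 * R := by
    rw [Real.log_mul (by norm_num) hRp.ne']
    have h1 := Real.log_le_sub_one_of_pos hRp
    have h2 : Real.log 30 ≤ 5 := by
      have h3 : Real.log 30 ≤ Real.log 32 := Real.log_le_log (by norm_num) (by norm_num)
      have h4 : (32:ℝ) = 2 ^ 5 := by norm_num
      rw [h4, Real.log_pow] at h3
      have := Real.log_two_lt_d9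
      push_cast at h3
      linarith
    linarith
  rw [hlog]
  nlinarith

end Pool.Agent.L0h53.DB
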